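import Pool.Agent.Helper53.WR.Params

/-!
# Project WR, piece E5a: exponent of the number of representations after one step
-/

set_option autoImplicit false

namespace Pool.Agent.Helper81.WR

open Finset Filter
open Pool.Agent.Helper53.WR

lemma laP_bound (M k : ℕ) (hM : 3 ≤ M) : laP M k + 1 ≤ 13 * M * (k + 1) ^ (M - 1) := by
  have h1 := pow_succ_le M k
  have h2 : 1 ≤ M * (k + 1) ^ (M - 1) := Nat.mul_pos (by omega) (Nat.pow_pos (by omega))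
  unfold laP uP
  have h3 : 13 * M * (k + 1) ^ (M - 1) = 13 * (M * (k + 1) ^ (M - 1)) := by ring
  rw [h3]
  omega

theorem step_rep (M G : ℕ) (hM : 3 ≤ M) (hG : 1 ≤ G) (hGM : G + 2 ≤ M) (C β : ℝ) (hC : 0 ≤ C)
    (hβ : 0 ≤ β) (k0 : ℕ) (A : Set ℕ)
    (h0 : ∀ n, n < 2 ^ (4 * k0 ^ M + thP M G k0) → rep A n = 0)
    (h1 : ∀ k, k0 ≤ k → ∀ n, 2 ^ (4 * k ^ M + thP M G k) ≤ n →
        n < 2 ^ (4 * (k + 1) ^ M + thP M G (k + 1)) →
        rep A n ≤ 4096 ^ 2 * 2592 * ⌊C * ((laP M k + 1 : ℕ) : ℝ) ^ β⌋₊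
          + 2 * (4096 * (k ^ (M - G) * (2 ^ 15 * k ^ 2 + 1)))) :
    ∃ C' : ℝ, ∀ l : ℕ, 1 ≤ l → ∀ n : ℕ, n < 2 ^ l → (rep A n : ℝ) ≤
      C' * (l : ℝ) ^ (max ((1 - 1 / (M : ℝ)) * β) (((M : ℝ) - G + 2) / M)) := by
  set K1 : ℝ := 4096 ^ 2 * 2592 * (C * ((13 * M : ℝ) * 2 ^ (M - 1)) ^ β) with hK1
  set K2 : ℝ := 2 * (4096 * (2 ^ 16 * 2 ^ (M - G + 2))) with hK2
  have hM0 : (0 : ℝ) < M := by
    have : 0 < M := by omega
    exact_mod_cast this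
  have hK1n : 0 ≤ K1 := by positivity
  have hK2n : 0 ≤ K2 := by positivity
  refine ⟨K1 + K2, fun l hl n hn => ?_⟩
  have hl1 : (1 : ℝ) ≤ l := by exact_mod_cast hl
  have hl0 : (0 : ℝ) < l := by linarith
  by_cases hn0 : n < 2 ^ (4 * k0 ^ M + thP M G k0)
  · rw [h0 n hn0, Nat.cast_zero]
    positivity
  push Not at hn0
  -- the level of `n`
  have hex : ∃ k, k0 ≤ k ∧ n < 2 ^ (4 * (k + 1) ^ M + thP M G (k + 1)) := by
    refine ⟨k0 + n, by omega, ?_⟩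
    have a1 : n < 2 ^ n := Nat.lt_two_pow_self
    have a2 : (k0 + n + 1) ≤ (k0 + n + 1) ^ M := Nat.le_self_pow (by omega) _
    exact a1.trans_le (Nat.pow_le_pow_right (by norm_num) (by omega))
  classical
  obtain ⟨hk0, hkn⟩ := Nat.find_spec hex
  set k := Nat.find hex with hk
  have hlow : 2 ^ (4 * k ^ M + thP M G k) ≤ n := by
    rcases Nat.lt_or_ge k0 k with h | h
    · have h2 := Nat.find_min hex (m := k - 1) (by omega)
      rw [not_and] at h2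
      have h3 := h2 (by omega)
      rw [Nat.sub_add_cancel (by omega)] at h3
      omega
    · have : k = k0 := le_antisymm h hk0
      rw [this]
      exact hn0
  have hrep := h1 k hk0 n hlow hkn
  -- `k ^ M ≤ l`
  have hkl : 4 * k ^ M + thP M G k < l := by
    by_contra hcon
    push Not at hcon
    have : 2 ^ l ≤ 2 ^ (4 * k ^ M + thP M G k) := Nat.pow_le_pow_right (by norm_num) hcon
    omega
  have hkM : (k : ℝ) ^ M ≤ l := by
    have : k ^ M ≤ l := by omega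
    exact_mod_cast this
  set y : ℝ := (l : ℝ) ^ (1 / (M : ℝ)) with hy
  have hy1 : 1 ≤ y := Real.one_le_rpow hl1 (by positivity)
  have hky : (k : ℝ) ≤ y := by
    rw [hy, one_div, Real.le_rpow_inv_iff_of_pos (Nat.cast_nonneg k) hl0.le hM0,
      Real.rpow_natCast]
    exact hkM
  have hk1 : ((k : ℝ) + 1) ≤ 2 * y := by linarith
  -- powers of `y`
  have hypow : ∀ m : ℕ, y ^ m = (l : ℝ) ^ ((m : ℝ) / M) := by
    intro m
    rw [hy, ← Real.rpow_natCast, ← Real.rpow_mul hl0.le]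
    congr 1
    ring
  -- first term
  have t1 : ((⌊C * ((laP M k + 1 : ℕ) : ℝ) ^ β⌋₊ : ℕ) : ℝ) ≤
      C * ((13 * M : ℝ) * 2 ^ (M - 1)) ^ β * (l : ℝ) ^ ((1 - 1 / (M : ℝ)) * β) := by
    have hnn : 0 ≤ C * ((laP M k + 1 : ℕ) : ℝ) ^ β := by positivity
    refine (Nat.floor_le hnn).trans ?_
    rw [mul_assoc]
    refine mul_le_mul_of_nonneg_left ?_ hC
    have b1 : ((laP M k + 1 : ℕ) : ℝ) ≤ (13 * M : ℝ) * ((k : ℝ) + 1) ^ (M - 1) := by
      exact_mod_cast laP_bound M k hM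
    have b2 : ((k : ℝ) + 1) ^ (M - 1) ≤ (2 * y) ^ (M - 1) :=
      pow_le_pow_left₀ (by positivity) hk1 _
    have b3 : ((laP M k + 1 : ℕ) : ℝ) ≤ ((13 * M : ℝ) * 2 ^ (M - 1)) * y ^ (M - 1) := by
      rw [mul_pow] at b2
      calc ((laP M k + 1 : ℕ) : ℝ) ≤ (13 * M : ℝ) * ((k : ℝ) + 1) ^ (M - 1) := b1
        _ ≤ (13 * M : ℝ) * (2 ^ (M - 1) * y ^ (M - 1)) :=
            mul_le_mul_of_nonneg_left b2 (by positivity)
        _ = _ := by ring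
    have b4 := Real.rpow_le_rpow (by positivity) b3 hβ
    refine b4.trans (le_of_eq ?_)
    rw [Real.mul_rpow (by positivity) (by positivity), hypow, ← Real.rpow_mul hl0.le]
    congr 2
    rw [Nat.cast_sub (by omega : 1 ≤ M)]
    push_cast
    field_simp
  -- second term
  have t2 : ((k ^ (M - G) * (2 ^ 15 * k ^ 2 + 1) : ℕ) : ℝ) ≤
      (2 ^ 16 * 2 ^ (M - G + 2)) * (l : ℝ) ^ (((M : ℝ) - G + 2) / M) := by
    have c1 : k ^ (M - G) * (2 ^ 15 * k ^ 2 + 1) ≤ 2 ^ 16 * (k + 1) ^ (M - G + 2) := by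
      have c2 : k ^ (M - G) ≤ (k + 1) ^ (M - G) := Nat.pow_le_pow_left (Nat.le_succ k) _
      have c3 : 2 ^ 15 * k ^ 2 + 1 ≤ 2 ^ 16 * (k + 1) ^ 2 := by
        have c6 : (k + 1) ^ 2 = k ^ 2 + 2 * k + 1 := by ring
        rw [c6]
        generalize k ^ 2 = q
        omega
      calc k ^ (M - G) * (2 ^ 15 * k ^ 2 + 1) ≤ (k + 1) ^ (M - G) * (2 ^ 16 * (k + 1) ^ 2) :=
            Nat.mul_le_mul c2 c3
        _ = 2 ^ 16 * (k + 1) ^ (M - G + 2) := by rw [pow_add]; ring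
    have c4 : ((k ^ (M - G) * (2 ^ 15 * k ^ 2 + 1) : ℕ) : ℝ) ≤
        2 ^ 16 * ((k : ℝ) + 1) ^ (M - G + 2) := by exact_mod_cast c1
    refine c4.trans ?_
    have c5 : ((k : ℝ) + 1) ^ (M - G + 2) ≤ (2 * y) ^ (M - G + 2) :=
      pow_le_pow_left₀ (by positivity) hk1 _
    rw [mul_pow, hypow] at c5
    rw [mul_assoc]
    refine mul_le_mul_of_nonneg_left (c5.trans (le_of_eq ?_)) (by positivity)
    congr 3
    rw [Nat.cast_add, Nat.cast_sub (by omega : G ≤ M)]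
    norm_num
  -- exponents
  set e : ℝ := max ((1 - 1 / (M : ℝ)) * β) (((M : ℝ) - G + 2) / M) with he
  have l1 : (l : ℝ) ^ ((1 - 1 / (M : ℝ)) * β) ≤ (l : ℝ) ^ e :=
    Real.rpow_le_rpow_of_exponent_le hl1 (le_max_left _ _)
  have l2 : (l : ℝ) ^ (((M : ℝ) - G + 2) / M) ≤ (l : ℝ) ^ e :=
    Real.rpow_le_rpow_of_exponent_le hl1 (le_max_right _ _)
  have hrep' : (rep A n : ℝ) ≤ 4096 ^ 2 * 2592 * ((⌊C * ((laP M k + 1 : ℕ) : ℝ) ^ β⌋₊ : ℕ) : ℝ)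
      + 2 * (4096 * ((k ^ (M - G) * (2 ^ 15 * k ^ 2 + 1) : ℕ) : ℝ)) := by
    exact_mod_cast hrep
  calc (rep A n : ℝ) ≤ _ := hrep'
    _ ≤ 4096 ^ 2 * 2592 * (C * ((13 * M : ℝ) * 2 ^ (M - 1)) ^ β * (l : ℝ) ^ e) +
        2 * (4096 * ((2 ^ 16 * 2 ^ (M - G + 2)) * (l : ℝ) ^ e)) := by
        have d1 : C * ((13 * M : ℝ) * 2 ^ (M - 1)) ^ β * (l : ℝ) ^ ((1 - 1 / (M : ℝ)) * β) ≤
            C * ((13 * M : ℝ) * 2 ^ (M - 1)) ^ β * (l : ℝ) ^ e :=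
          mul_le_mul_of_nonneg_left l1 (by positivity)
        have d2 : (2 ^ 16 * 2 ^ (M - G + 2)) * (l : ℝ) ^ (((M : ℝ) - G + 2) / M) ≤
            (2 ^ 16 * 2 ^ (M - G + 2)) * (l : ℝ) ^ e :=
          mul_le_mul_of_nonneg_left l2 (by positivity)
        have d3 := t1.trans d1
        have d4 := t2.trans d2
        refine add_le_add (mul_le_mul_of_nonneg_left d3 (by norm_num)) ?_
        refine mul_le_mul_of_nonneg_left (mul_le_mul_of_nonneg_left d4 (by norm_num)) (by norm_num)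
    _ = (K1 + K2) * (l : ℝ) ^ e := by
        rw [hK1, hK2]
        ring

end Pool.Agent.Helper81.WR
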